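import Mathlib
import Pool.Agent.Y293.FA.Base
import Pool.Agent.Y293.FA.Stm3
import Pool.Agent.Y899.FA.Avg
import Pool.Agent.Y462.FA.Dir1

/-!
# Project FA2: averages over a measure on the directions (job FA2-AVGC)
-/

set_option autoImplicit false

namespace Pool.Agent.Y758.FA

open MeasureTheory Set Filter Topology
open scoped ENNReal
open Pool.Agent.Y293.FA Pool.Agent.Y899.FA

theorem avgc : S_PERT → S_AVGC := by
  intro hP ν _ R hR hνR ρ _ e hem he X hX η K a b Q hη hη1 hK ha hab hQ hsum hint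
  have hb : 0 < b := lt_of_lt_of_le ha hab
  have hpi := Real.pi_pos
  set D : ℝ → ℝ := fun θ => dd a b (ν.map (pr θ)) with hD
  have hD0 : ∀ θ, 0 ≤ D θ := fun θ => dd_nonneg _ _ _
  have hDm : Measurable fun θ => ENNReal.ofReal (D θ) := Pool.Agent.Y462.FA.measurable_dd ha hb ν
  set c : ℝ := 12 * (R * η) / a ^ 2 with hc
  have hc0 : 0 ≤ c := by positivity
  set G : ℝ → ℝ≥0∞ := fun θ => ENNReal.ofReal (3 * D θ + c) with hG
  have e1 : ∀ θ, G θ = 3 * ENNReal.ofReal (D θ) + ENNReal.ofReal c := by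
    intro θ
    rw [hG]
    show ENNReal.ofReal (3 * D θ + c) = _
    rw [ENNReal.ofReal_add (mul_nonneg (by norm_num) (hD0 θ)) hc0,
      ENNReal.ofReal_mul (by norm_num)]
    congr 2
    norm_num
  have hGm : Measurable G := by
    have : G = fun θ => 3 * ENNReal.ofReal (D θ) + ENNReal.ofReal c := funext e1
    rw [this]
    exact (hDm.const_mul 3).add_const _
  set T : Set (ℂ × ℝ) := {p | ‖uu p.2 - e p.1‖ ≤ η} with hT
  have hTm : MeasurableSet T :=
    measurableSet_le (((continuous_uu.measurable.comp measurable_snd).sub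
      (hem.comp measurable_fst)).norm) measurable_const
  -- the estimate for one direction
  have h1 : ∀ x θ, (x, θ) ∈ T → dd a b (ν.map (pe (e x))) ≤ 3 * D θ + c := by
    intro x θ hθ
    have := hP ν (pe (e x)) (pr θ) (measurable_pe _) (measurable_pr θ) (R * η) ?_ a b ha hab
    · exact this
    · filter_upwards [hνR] with z hz
      refine (pe_sub_le (e x) z θ).trans ?_
      exact mul_le_mul hz hθ (norm_nonneg _) hR.le
  -- integrate over the directions near `e x`
  have h2 : ∀ x, ENNReal.ofReal (dd a b (ν.map (pe (e x)))) * ENNReal.ofReal η ≤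
      ∫⁻ θ in Ioc 0 (2 * Real.pi), T.indicator (fun p => G p.2) (x, θ) := by
    intro x
    have hTx : MeasurableSet {θ : ℝ | ‖uu θ - e x‖ ≤ η} :=
      measurableSet_le ((continuous_uu.sub continuous_const).norm.measurable) measurable_const
    have h3 : ∫⁻ θ in Ioc 0 (2 * Real.pi), ({θ : ℝ | ‖uu θ - e x‖ ≤ η}).indicator
        (fun _ => ENNReal.ofReal (dd a b (ν.map (pe (e x))))) θ =
        ENNReal.ofReal (dd a b (ν.map (pe (e x)))) *
          volume ({θ : ℝ | ‖uu θ - e x‖ ≤ η} ∩ Ioc 0 (2 * Real.pi)) := by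
      rw [lintegral_indicator_const hTx, Measure.restrict_apply hTx]
    have h4 : ∫⁻ θ in Ioc 0 (2 * Real.pi), ({θ : ℝ | ‖uu θ - e x‖ ≤ η}).indicator
        (fun _ => ENNReal.ofReal (dd a b (ν.map (pe (e x))))) θ ≤
        ∫⁻ θ in Ioc 0 (2 * Real.pi), T.indicator (fun p => G p.2) (x, θ) := by
      refine lintegral_mono fun θ => ?_
      by_cases hθ : (x, θ) ∈ T
      · have hθ' : θ ∈ {θ : ℝ | ‖uu θ - e x‖ ≤ η} := hθ
        rw [indicator_of_mem hθ, indicator_of_mem hθ', hG]
        exact ENNReal.ofReal_le_ofReal (h1 x θ hθ)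
      · have hθ' : θ ∉ {θ : ℝ | ‖uu θ - e x‖ ≤ η} := hθ
        rw [indicator_of_notMem hθ, indicator_of_notMem hθ']
    refine le_trans ?_ h4
    rw [h3]
    exact mul_le_mul_right (volume_ge (e x) (he x) η hη hη1) _
  -- the overlap of the sets of directions
  have h5 : ∀ θ, ∫⁻ x, T.indicator (fun p => G p.2) (x, θ) ∂ρ ≤ ENNReal.ofReal (K * η) * G θ := by
    intro θ
    have hTθ : MeasurableSet {x : ℂ | ‖uu θ - e x‖ ≤ η} :=
      measurableSet_le ((measurable_const.sub hem).norm) measurable_const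
    have h6 : (fun x => T.indicator (fun p => G p.2) (x, θ)) =
        ({x : ℂ | ‖uu θ - e x‖ ≤ η}).indicator (fun _ => G θ) := by
      funext x
      by_cases hx : (x, θ) ∈ T
      · have hx' : x ∈ {x : ℂ | ‖uu θ - e x‖ ≤ η} := hx
        rw [indicator_of_mem hx, indicator_of_mem hx']
      · have hx' : x ∉ {x : ℂ | ‖uu θ - e x‖ ≤ η} := hx
        rw [indicator_of_notMem hx, indicator_of_notMem hx']
    rw [h6, lintegral_indicator_const hTθ, mul_comm]
    refine mul_le_mul_left ?_ _
    by_cases hex : ∃ x ∈ X, ‖uu θ - e x‖ ≤ η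
    · obtain ⟨x, hxX, hx⟩ := hex
      refine le_trans (measure_mono fun x' hx' => ?_) (hsum x hxX)
      show ‖e x' - e x‖ ≤ 2 * η
      have hx'' : ‖uu θ - e x'‖ ≤ η := hx'
      have h6 : e x' - e x = (uu θ - e x) - (uu θ - e x') := by ring
      rw [h6]
      refine (norm_sub_le _ _).trans ?_
      linarith
    · have h7 : ρ {x : ℂ | ‖uu θ - e x‖ ≤ η} = 0 := by
        refine measure_mono_null (fun x hx => ?_) hX
        intro hxX
        exact hex ⟨x, hxX, hx⟩
      rw [h7]
      exact zero_le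
  -- the integral of `G`
  have h6 : ∫⁻ θ in Ioc 0 (2 * Real.pi), G θ ≤
      ENNReal.ofReal (3 * Q + 24 * Real.pi * R * η / a ^ 2) := by
    simp only [e1]
    rw [lintegral_add_right _ measurable_const, lintegral_const_mul' _ _ (by norm_num),
      setLIntegral_const, Real.volume_Ioc]
    refine (add_le_add (mul_le_mul_right hint 3) le_rfl).trans ?_
    rw [← ENNReal.ofReal_mul hc0]
    have e2 : (3 : ℝ≥0∞) = ENNReal.ofReal 3 := by norm_num
    rw [e2, ← ENNReal.ofReal_mul (by norm_num), ← ENNReal.ofReal_add (by positivity)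
      (by rw [sub_zero]; positivity)]
    apply ENNReal.ofReal_le_ofReal
    rw [hc]
    apply le_of_eq
    ring
  -- conclusion
  have h7 : (∫⁻ x, ENNReal.ofReal (dd a b (ν.map (pe (e x)))) ∂ρ) * ENNReal.ofReal η ≤
      ENNReal.ofReal (K * (3 * Q + 24 * Real.pi * R * η / a ^ 2)) * ENNReal.ofReal η := by
    rw [← lintegral_mul_const' _ _ ENNReal.ofReal_ne_top]
    refine (lintegral_mono h2).trans ?_
    rw [lintegral_lintegral_swap]
    · refine (lintegral_mono fun θ => h5 θ).trans ?_
      rw [lintegral_const_mul' _ _ ENNReal.ofReal_ne_top]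
      refine (mul_le_mul_right h6 _).trans ?_
      rw [← ENNReal.ofReal_mul (by positivity), ← ENNReal.ofReal_mul (by positivity)]
      apply ENNReal.ofReal_le_ofReal
      apply le_of_eq
      ring
    · exact ((hGm.comp measurable_snd).indicator hTm).aemeasurable
  have hη' : ENNReal.ofReal η ≠ 0 := by
    rw [Ne, ENNReal.ofReal_eq_zero, not_le]
    exact hη
  exact (ENNReal.mul_le_mul_iff_left hη' ENNReal.ofReal_ne_top).1 h7

end Pool.Agent.Y758.FA
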